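import Pool.Agent.Helper68.DS.Goals

/-! # Packet KPR (3671) : restriction to a plane -/

set_option autoImplicit false

namespace Pool.Agent.Helper86.DS

open MvPolynomial
open Pool.Agent.Helper68.DS

/-- the section of the restriction -/
noncomputable def sec : MvPolynomial (Fin 3) ℂ →ₐ[ℂ] MvPolynomial (Fin 4) ℂ :=
  aeval ![X 1, X 2, X 3]

theorem pr_sec (μ : ℂ) (f : MvPolynomial (Fin 3) ℂ) : pr μ (sec f) = f := by
  have h : (pr μ).comp sec = AlgHom.id ℂ _ := by
    apply MvPolynomial.algHom_ext
    intro i
    fin_cases i <;> simp [pr, sec]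
  exact DFunLike.congr_fun h f

theorem sub_sec (μ : ℂ) (F : MvPolynomial (Fin 4) ℂ) :
    ∃ G, F - sec (pr μ F) = ell μ * G := by
  induction F using MvPolynomial.induction_on with
  | C a => exact ⟨0, by simp [pr, sec]⟩
  | add p q hp hq =>
    obtain ⟨G, hG⟩ := hp
    obtain ⟨G', hG'⟩ := hq
    refine ⟨G + G', ?_⟩
    rw [map_add, map_add, mul_add, ← hG, ← hG']
    ring
  | mul_X p i hp =>
    obtain ⟨G, hG⟩ := hp
    have hX : ∃ G', (X i : MvPolynomial (Fin 4) ℂ) - sec (pr μ (X i)) = ell μ * G' := by
      fin_cases i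
      · exact ⟨1, by simp [pr, sec, ell]⟩
      · exact ⟨0, by simp [pr, sec]⟩
      · exact ⟨0, by simp [pr, sec]⟩
      · exact ⟨0, by simp [pr, sec]⟩
    obtain ⟨G', hG'⟩ := hX
    refine ⟨G * X i + sec (pr μ p) * G', ?_⟩
    rw [map_mul, map_mul]
    have e : p * X i - sec (pr μ p) * sec (pr μ (X i)) =
        (p - sec (pr μ p)) * X i + sec (pr μ p) * (X i - sec (pr μ (X i))) := by ring
    rw [e, hG, hG']
    ring

theorem ell_hom (μ : ℂ) : (ell μ).IsHomogeneous 1 := by
  unfold ell
  exact (isHomogeneous_X ℂ 0).sub (isHomogeneous_C_mul_X μ 1)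

theorem KPR : KPR_stmt := by
  intro μ k
  refine ⟨?_, ?_, ?_, ?_⟩
  · intro F hF h0
    obtain ⟨G, hG⟩ := sub_sec μ F
    rw [h0, map_zero, sub_zero] at hG
    refine ⟨homogeneousComponent k G, homogeneousComponent_mem k G, ?_⟩
    have h1 : homogeneousComponent (k + 1) F = F := by
      rw [homogeneousComponent_of_mem hF, if_pos rfl]
    have h2 : G = ∑ j ∈ Finset.range (G.totalDegree + 1), homogeneousComponent j G :=
      (sum_homogeneousComponent G).symm
    have h3 : homogeneousComponent (k + 1) (ell μ * G) = ell μ * homogeneousComponent k G := by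
      conv_lhs => rw [h2]
      rw [Finset.mul_sum, map_sum]
      have h4 : ∀ j ∈ Finset.range (G.totalDegree + 1),
          homogeneousComponent (k + 1) (ell μ * homogeneousComponent j G) =
            if j = k then ell μ * homogeneousComponent k G else 0 := by
        intro j _
        have h5 : ell μ * homogeneousComponent j G ∈ homogeneousSubmodule (Fin 4) ℂ (j + 1) := by
          rw [mem_homogeneousSubmodule, add_comm]
          exact (ell_hom μ).mul (homogeneousComponent_isHomogeneous j G)
        rw [homogeneousComponent_of_mem h5]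
        by_cases hj : j = k
        · subst hj; simp
        · rw [if_neg hj, if_neg (by omega)]
      rw [Finset.sum_congr rfl h4, Finset.sum_ite_eq' (Finset.range (G.totalDegree + 1)) k]
      split_ifs with h6
      · rfl
      · rw [homogeneousComponent_eq_zero, mul_zero]
        simpa using h6
    rw [← h3, ← hG, h1]
  · intro f hf
    refine ⟨sec f, ?_, pr_sec μ f⟩
    rw [mem_homogeneousSubmodule] at hf ⊢
    have := hf.aeval (n := 1) (g := (![X 1, X 2, X 3] : Fin 3 → MvPolynomial (Fin 4) ℂ)) (by
      intro i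
      fin_cases i <;> exact isHomogeneous_X ℂ _)
    simpa [sec] using this
  · intro F hF
    rw [mem_homogeneousSubmodule] at hF ⊢
    have := hF.aeval (n := 1)
      (g := (![C μ * X 0, X 0, X 1, X 2] : Fin 4 → MvPolynomial (Fin 3) ℂ)) (by
      intro i
      fin_cases i
      · exact isHomogeneous_C_mul_X μ 0
      · exact isHomogeneous_X ℂ _
      · exact isHomogeneous_X ℂ _
      · exact isHomogeneous_X ℂ _)
    simpa [pr] using this
  · intro c
    simp only [lf, Fin.sum_univ_four, Fin.sum_univ_three, map_add, map_mul, pr, aeval_X]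
    simp
    ring

end Pool.Agent.Helper86.DS
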